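import Pool.Agent.X142.LI.Window
import Pool.Agent.X142.ZG.Sim

/-!
# Counting near relations `a + b ξ + c t`, `ξ` with a measure of irrationality of exponent `m`
-/

set_option autoImplicit false

namespace Pool.Agent.X142.ZG

open Finset Pool.Agent.X142.LI

/-- the form `a + b ξ + c t` -/
noncomputable def form (ξ t : ℝ) (v : ℤ × ℤ × ℤ) : ℝ := v.1 + v.2.1 * ξ + v.2.2 * t

/-- near relations -/
def Near (ξ t w : ℝ) : Set (ℤ × ℤ × ℤ) :=
  {v | Prim3 v ∧ 0 < v.2.2 ∧ |form ξ t v| ≤ (ht3 v : ℝ) ^ (-w)}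

/-- three near relations of the same size are linearly dependent -/
lemma det_zero (ξ t Y ε : ℝ) (v v' v'' : ℤ × ℤ × ℤ) (h1 : (ht3 v : ℝ) ≤ Y) (h2 : (ht3 v' : ℝ) ≤ Y)
    (h3 : (ht3 v'' : ℝ) ≤ Y) (e1 : |form ξ t v| ≤ ε) (e2 : |form ξ t v'| ≤ ε)
    (e3 : |form ξ t v''| ≤ ε) (hY : 6 * (ε * Y ^ 2) < 1) :
    v.1 * (v'.2.1 * v''.2.2 - v''.2.1 * v'.2.2) - v'.1 * (v.2.1 * v''.2.2 - v''.2.1 * v.2.2) +
      v''.1 * (v.2.1 * v'.2.2 - v'.2.1 * v.2.2) = 0 := by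
  have hY0 : 0 ≤ Y := (Nat.cast_nonneg _).trans h1
  have hε : 0 ≤ ε := (abs_nonneg _).trans e1
  have key : ∀ x y : ℤ × ℤ × ℤ, (ht3 x : ℝ) ≤ Y → (ht3 y : ℝ) ≤ Y →
      |((x.2.1 : ℝ) * y.2.2 - y.2.1 * x.2.2)| ≤ 2 * Y ^ 2 := by
    intro x y hx hy
    have a1 := (abs_snd x).trans hx
    have a2 := (abs_trd x).trans hx
    have a3 := (abs_snd y).trans hy
    have a4 := (abs_trd y).trans hy
    refine (abs_sub _ _).trans ?_
    rw [abs_mul, abs_mul]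
    have b1 := mul_le_mul a1 a4 (abs_nonneg _) hY0
    have b2 := mul_le_mul a3 a2 (abs_nonneg _) hY0
    nlinarith
  obtain ⟨D, hD⟩ : ∃ D : ℤ, D = v.1 * (v'.2.1 * v''.2.2 - v''.2.1 * v'.2.2) -
      v'.1 * (v.2.1 * v''.2.2 - v''.2.1 * v.2.2) +
      v''.1 * (v.2.1 * v'.2.2 - v'.2.1 * v.2.2) := ⟨_, rfl⟩
  rw [← hD]
  have hDr : (D : ℝ) = form ξ t v * ((v'.2.1 : ℝ) * v''.2.2 - v''.2.1 * v'.2.2) -
      form ξ t v' * ((v.2.1 : ℝ) * v''.2.2 - v''.2.1 * v.2.2) +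
      form ξ t v'' * ((v.2.1 : ℝ) * v'.2.2 - v'.2.1 * v.2.2) := by
    rw [hD]
    unfold form
    push_cast
    ring
  have hlt : |(D : ℝ)| < 1 := by
    rw [hDr]
    have m1 : |form ξ t v * ((v'.2.1 : ℝ) * v''.2.2 - v''.2.1 * v'.2.2)| ≤ ε * (2 * Y ^ 2) := by
      rw [abs_mul]
      exact mul_le_mul e1 (key _ _ h2 h3) (abs_nonneg _) hε
    have m2 : |form ξ t v' * ((v.2.1 : ℝ) * v''.2.2 - v''.2.1 * v.2.2)| ≤ ε * (2 * Y ^ 2) := by
      rw [abs_mul]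
      exact mul_le_mul e2 (key _ _ h1 h3) (abs_nonneg _) hε
    have m3 : |form ξ t v'' * ((v.2.1 : ℝ) * v'.2.2 - v'.2.1 * v.2.2)| ≤ ε * (2 * Y ^ 2) := by
      rw [abs_mul]
      exact mul_le_mul e3 (key _ _ h1 h2) (abs_nonneg _) hε
    refine lt_of_le_of_lt ((abs_add_le _ _).trans (add_le_add (abs_sub _ _) le_rfl)) ?_
    linarith
  have h4 : |D| < 1 := by exact_mod_cast hlt
  exact Int.abs_lt_one_iff.1 h4

/-- the bound for the multiplier -/
lemma mult_bound (c m w X G : ℝ) (k : ℝ) (hc : 0 < c) (hm : 0 < m) (hX : 1 ≤ X) (hG : 1 ≤ G)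
    (z : ℝ) (hz : 0 ≤ z) (hcz : c ≤ G ^ m * z) (h1 : |k| * G ≤ 8 * X ^ (2 : ℝ))
    (h2 : |k| * z ≤ 4 * (X * X ^ (-w))) (hk : k = 0 ∨ 1 ≤ |k|) :
    |k| ≤ (4 * 8 ^ m / c) ^ (1 / (1 + m)) * X ^ ((1 + 2 * m - w) / (1 + m)) := by
  have hX0 : 0 < X := by linarith
  have hG0 : 0 < G := by linarith
  have hm1 : 0 < 1 + m := by linarith
  rcases hk with rfl | hk
  · simp only [abs_zero]
    positivity
  · have hk0 : 0 < |k| := by linarith
    have h3 : |k| * c ≤ G ^ m * (4 * (X * X ^ (-w))) := by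
      calc |k| * c ≤ |k| * (G ^ m * z) := by gcongr
        _ = G ^ m * (|k| * z) := by ring
        _ ≤ _ := by gcongr
    have h4 : |k| ^ m * G ^ m ≤ 8 ^ m * X ^ (2 * m) := by
      rw [← Real.mul_rpow hk0.le hG0.le, Real.rpow_mul hX0.le, ← Real.mul_rpow (by norm_num) (by positivity)]
      exact Real.rpow_le_rpow (by positivity) h1 hm.le
    have h5 : |k| ^ (1 + m) ≤ (4 * 8 ^ m / c) * X ^ (1 + 2 * m - w) := by
      rw [div_mul_eq_mul_div, le_div_iff₀ hc, Real.rpow_add hk0, Real.rpow_one]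
      have e1 : X ^ (1 + 2 * m - w) = X ^ (2 * m) * (X * X ^ (-w)) := by
        nth_rewrite 3 [← Real.rpow_one X]
        rw [← Real.rpow_add hX0, ← Real.rpow_add hX0]
        congr 1
        ring
      rw [e1]
      have hp : 0 ≤ |k| ^ m := by positivity
      have hq : 0 ≤ 4 * (X * X ^ (-w)) := by positivity
      calc |k| * |k| ^ m * c = |k| ^ m * (|k| * c) := by ring
        _ ≤ |k| ^ m * (G ^ m * (4 * (X * X ^ (-w)))) := mul_le_mul_of_nonneg_left h3 hp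
        _ = (|k| ^ m * G ^ m) * (4 * (X * X ^ (-w))) := by ring
        _ ≤ (8 ^ m * X ^ (2 * m)) * (4 * (X * X ^ (-w))) := mul_le_mul_of_nonneg_right h4 hq
        _ = _ := by ring
    have h6 := Real.rpow_le_rpow (by positivity) h5 (show (0 : ℝ) ≤ 1 / (1 + m) by positivity)
    rw [← Real.rpow_mul hk0.le, mul_one_div_cancel hm1.ne', Real.rpow_one,
      Real.mul_rpow (by positivity) (by positivity), ← Real.rpow_mul hX0.le] at h6
    refine h6.trans (le_of_eq ?_)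
    congr 2
    ring

/-- the window -/
def Win (ξ t w X : ℝ) : Set (ℤ × ℤ × ℤ) :=
  {v | v ∈ Near ξ t w ∧ X ≤ (ht3 v : ℝ) ∧ (ht3 v : ℝ) ≤ 2 * X}

lemma win_finite (ξ t w X : ℝ) : (Win ξ t w X).Finite :=
  (fin_ht3 (2 * X)).subset fun _ hv => hv.2.2

theorem window (ξ m w : ℝ) (hm : 0 < m) (hξ : MeasE ξ m) (hw : 2 < w) (hw3 : w ≤ 1 + 2 * m) :
    ∃ C : ℝ, 0 < C ∧ ∀ t X : ℝ, 1 ≤ X →
      ((Win ξ t w X).ncard : ℝ) ≤ C * X ^ ((1 + 2 * m - w) / (1 + m)) := by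
  classical
  obtain ⟨c, hc, hlin⟩ := hξ
  obtain ⟨X₁, hX₁⟩ : ∃ X₁ : ℝ, X₁ = (25 : ℝ) ^ (1 / (w - 2)) := ⟨_, rfl⟩
  have hw2 : 0 < w - 2 := by linarith
  have hX₁0 : 0 < X₁ := by rw [hX₁]; positivity
  obtain ⟨M, hM⟩ : ∃ M : ℝ, M = (4 * 8 ^ m / c) ^ (1 / (1 + m)) := ⟨_, rfl⟩
  have hM0 : 0 ≤ M := by rw [hM]; positivity
  obtain ⟨N, hN⟩ : ∃ N : ℕ, N = {v : ℤ × ℤ × ℤ | (ht3 v : ℝ) ≤ 2 * X₁}.ncard := ⟨_, rfl⟩
  have hs : 0 ≤ (1 + 2 * m - w) / (1 + m) := div_nonneg (by linarith) (by linarith)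
  refine ⟨N + (18 * M + 9), by positivity, fun t X hX => ?_⟩
  have hX0 : 0 < X := by linarith
  have hXs : 1 ≤ X ^ ((1 + 2 * m - w) / (1 + m)) := Real.one_le_rpow hX hs
  have hN0 : (0 : ℝ) ≤ N := Nat.cast_nonneg _
  by_cases hXX : X < X₁
  · have h1 : (Win ξ t w X).ncard ≤ N := by
      rw [hN]
      refine Set.ncard_le_ncard (fun v hv => ?_) (fin_ht3 _)
      exact hv.2.2.trans (by linarith)
    have h2 : ((Win ξ t w X).ncard : ℝ) ≤ N := by exact_mod_cast h1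
    nlinarith
  · rw [not_lt] at hXX
    have hsmall : 6 * (X ^ (-w) * (2 * X) ^ 2) < 1 := by
      have h1 : (25 : ℝ) ≤ X ^ (w - 2) := by
        calc (25 : ℝ) = X₁ ^ (w - 2) := by
              rw [hX₁, ← Real.rpow_mul (by norm_num), one_div_mul_cancel hw2.ne', Real.rpow_one]
          _ ≤ _ := Real.rpow_le_rpow hX₁0.le hXX hw2.le
      have h2 : X ^ (-w) * X ^ 2 * X ^ (w - 2) = 1 := by
        rw [← Real.rpow_natCast X 2, ← Real.rpow_add hX0, ← Real.rpow_add hX0]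
        have : -w + ((2 : ℕ) : ℝ) + (w - 2) = 0 := by push_cast; ring
        rw [this, Real.rpow_zero]
      have h3 : 0 < X ^ (-w) * X ^ 2 := by positivity
      nlinarith
    rcases Set.eq_empty_or_nonempty (Win ξ t w X) with he | ⟨v₁, hv₁⟩
    · rw [he, Set.ncard_empty]
      push_cast
      positivity
    -- the elimination map
    have hw1 := hv₁
    obtain ⟨⟨hp₁, hc₁, hf₁⟩, hl₁, hu₁⟩ := hv₁
    have hf : ∀ v ∈ Win ξ t w X, |form ξ t v| ≤ X ^ (-w) := fun v hv =>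
      hv.1.2.2.trans (Real.rpow_le_rpow_of_nonpos hX0 hv.2.1 (by linarith))
    obtain ⟨u, hu⟩ : ∃ u : ℤ × ℤ × ℤ → ℤ × ℤ, u = fun v =>
      (v₁.2.2 * v.1 - v.2.2 * v₁.1, v₁.2.2 * v.2.1 - v.2.2 * v₁.2.1) := ⟨_, rfl⟩
    have hpar : ∀ x ∈ u '' Win ξ t w X, ∀ y ∈ u '' Win ξ t w X, x.1 * y.2 = y.1 * x.2 := by
      rintro _ ⟨v, hv, rfl⟩ _ ⟨v', hv', rfl⟩
      have h1 := det_zero ξ t (2 * X) (X ^ (-w)) v₁ v v' hu₁ hv.2.2 hv'.2.2 (hf v₁ hw1) (hf v hv)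
        (hf v' hv') hsmall
      rw [hu]
      simp only
      have h2 : (v₁.2.2 * v.1 - v.2.2 * v₁.1) * (v₁.2.2 * v'.2.1 - v'.2.2 * v₁.2.1) -
          (v₁.2.2 * v'.1 - v'.2.2 * v₁.1) * (v₁.2.2 * v.2.1 - v.2.2 * v₁.2.1) =
          v₁.2.2 * (v₁.1 * (v.2.1 * v'.2.2 - v'.2.1 * v.2.2) -
            v.1 * (v₁.2.1 * v'.2.2 - v'.2.1 * v₁.2.2) +
            v'.1 * (v₁.2.1 * v.2.2 - v.2.1 * v₁.2.2)) := by ring
      rw [h1, mul_zero] at h2
      linarith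
    obtain ⟨g, hg, hk⟩ := parallel _ hpar
    have hk' : ∀ v ∈ Win ξ t w X, ∃ k : ℤ, v₁.2.2 * v.1 - v.2.2 * v₁.1 = k * g.1 ∧
        v₁.2.2 * v.2.1 - v.2.2 * v₁.2.1 = k * g.2 := by
      intro v hv
      have := hk (u v) ⟨v, hv, rfl⟩
      rw [hu] at this
      exact this
    choose! kf hkf using hk'
    -- size of the multiplier
    obtain ⟨G, hG⟩ : ∃ G : ℝ, G = max |(g.1 : ℝ)| |(g.2 : ℝ)| := ⟨_, rfl⟩
    have hG1 : 1 ≤ G := by
      rw [hG]
      rcases hg with h | h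
      · refine le_trans ?_ (le_max_left _ _)
        rw [← Int.cast_abs]
        exact_mod_cast Int.one_le_abs h
      · refine le_trans ?_ (le_max_right _ _)
        rw [← Int.cast_abs]
        exact_mod_cast Int.one_le_abs h
    have hcz := hlin g.1 g.2 hg G hG1 (by rw [hG]; exact le_max_left _ _)
      (by rw [hG]; exact le_max_right _ _)
    have hX2 : X ^ (2 : ℝ) = X ^ 2 := by
      rw [← Real.rpow_natCast X 2]
      norm_num
    have hkb : ∀ v ∈ Win ξ t w X, |(kf v : ℝ)| ≤ M * X ^ ((1 + 2 * m - w) / (1 + m)) := by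
      intro v hv
      obtain ⟨e1, e2⟩ := hkf v hv
      have a1 := (abs_fst v).trans hv.2.2
      have a2 := (abs_snd v).trans hv.2.2
      have a3 := (abs_trd v).trans hv.2.2
      have b1 := (abs_fst v₁).trans hu₁
      have b2 := (abs_snd v₁).trans hu₁
      have b3 := (abs_trd v₁).trans hu₁
      have e1r : (v₁.2.2 : ℝ) * v.1 - v.2.2 * v₁.1 = kf v * g.1 := by exact_mod_cast e1
      have e2r : (v₁.2.2 : ℝ) * v.2.1 - v.2.2 * v₁.2.1 = kf v * g.2 := by exact_mod_cast e2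
      have mm : ∀ p q r s : ℝ, |p| ≤ 2 * X → |q| ≤ 2 * X → |r| ≤ 2 * X → |s| ≤ 2 * X →
          |p * q - r * s| ≤ 8 * X ^ (2 : ℝ) := by
        intro p q r s hp hq hr hs
        rw [hX2]
        refine (abs_sub _ _).trans ?_
        rw [abs_mul, abs_mul]
        have := mul_le_mul hp hq (abs_nonneg _) (by positivity)
        have := mul_le_mul hr hs (abs_nonneg _) (by positivity)
        nlinarith
      rw [hM]
      refine mult_bound c m w X G _ hc hm hX hG1 _ (abs_nonneg _) hcz ?_ ?_ ?_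
      · rw [hG]
        rcases max_choice |(g.1 : ℝ)| |(g.2 : ℝ)| with h | h
        · rw [h, ← abs_mul, ← e1r]
          exact mm _ _ _ _ b3 a1 a3 b1
        · rw [h, ← abs_mul, ← e2r]
          exact mm _ _ _ _ b3 a2 a3 b2
      · rw [← abs_mul]
        have e3 : (kf v : ℝ) * (g.1 + g.2 * ξ) =
            v₁.2.2 * form ξ t v - v.2.2 * form ξ t v₁ := by
          unfold form
          linear_combination -e1r - ξ * e2r
        rw [e3]
        refine (abs_sub _ _).trans ?_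
        rw [abs_mul, abs_mul]
        have := mul_le_mul b3 (hf v hv) (abs_nonneg _) (by positivity)
        have := mul_le_mul a3 (hf v₁ hw1) (abs_nonneg _) (by positivity)
        nlinarith
      · by_cases h0 : kf v = 0
        · left; rw [h0]; simp
        · right
          rw [← Int.cast_abs]
          exact_mod_cast Int.one_le_abs h0
    -- counting
    have hfin := win_finite ξ t w X
    obtain ⟨S, hS⟩ : ∃ S : Finset (ℤ × ℤ × ℤ), S = hfin.toFinset := ⟨_, rfl⟩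
    have hmem : ∀ v, v ∈ S ↔ v ∈ Win ξ t w X := fun v => by rw [hS]; exact hfin.mem_toFinset
    have hcard : (Win ξ t w X).ncard = S.card := by
      rw [hS, Set.ncard_eq_toFinset_card _ hfin]
    have hfib : ∀ a ∈ S.image kf, (S.filter fun x => kf x = a).card ≤ 9 := by
      intro a ha
      obtain ⟨x₀, hx₀, rfl⟩ := Finset.mem_image.1 ha
      have hx₀' := (hmem x₀).1 hx₀
      have hq : ∀ x ∈ S.filter (fun x => kf x = kf x₀), ∃ q : ℤ, q ∈ Finset.Icc (-4 : ℤ) 4 ∧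
          x.1 - x₀.1 = q * v₁.1 ∧ x.2.1 - x₀.2.1 = q * v₁.2.1 ∧ x.2.2 - x₀.2.2 = q * v₁.2.2 := by
        intro x hx
        obtain ⟨hxS, hxk⟩ := Finset.mem_filter.1 hx
        have hx' := (hmem x).1 hxS
        obtain ⟨e1, e2⟩ := hkf x hx'
        obtain ⟨f1, f2⟩ := hkf x₀ hx₀'
        rw [hxk] at e1 e2
        obtain ⟨q, q1, q2, q3⟩ := fibre v₁ x x₀ hp₁ hc₁ (e1.trans f1.symm) (e2.trans f2.symm)
        refine ⟨q, ?_, q1, q2, q3⟩
        have a1 := (abs_fst x).trans hx'.2.2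
        have a2 := (abs_snd x).trans hx'.2.2
        have a3 := (abs_trd x).trans hx'.2.2
        have b1 := (abs_fst x₀).trans hx₀'.2.2
        have b2 := (abs_snd x₀).trans hx₀'.2.2
        have b3 := (abs_trd x₀).trans hx₀'.2.2
        have r1 : |(q : ℝ)| * |(v₁.1 : ℝ)| ≤ 4 * X := by
          rw [← abs_mul]
          have : (q : ℝ) * v₁.1 = x.1 - x₀.1 := by exact_mod_cast q1.symm
          rw [this]
          exact (abs_sub _ _).trans (by linarith)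
        have r2 : |(q : ℝ)| * |(v₁.2.1 : ℝ)| ≤ 4 * X := by
          rw [← abs_mul]
          have : (q : ℝ) * v₁.2.1 = x.2.1 - x₀.2.1 := by exact_mod_cast q2.symm
          rw [this]
          exact (abs_sub _ _).trans (by linarith)
        have r3 : |(q : ℝ)| * |(v₁.2.2 : ℝ)| ≤ 4 * X := by
          rw [← abs_mul]
          have : (q : ℝ) * v₁.2.2 = x.2.2 - x₀.2.2 := by exact_mod_cast q3.symm
          rw [this]
          exact (abs_sub _ _).trans (by linarith)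
        have r4 := abs_ht3_mul_le v₁ q (4 * X) r1 r2 r3
        have r5 : |(q : ℝ)| ≤ 4 := by
          have : |(q : ℝ)| * X ≤ 4 * X := by
            refine le_trans ?_ r4
            gcongr
          exact le_of_mul_le_mul_right this hX0
        rw [Finset.mem_Icc]
        have := abs_le.1 r5
        exact ⟨by exact_mod_cast this.1, by exact_mod_cast this.2⟩
      choose! q hq1 hq2 hq3 hq4 using hq
      have hle : (S.filter fun x => kf x = kf x₀).card ≤ (Finset.Icc (-4 : ℤ) 4).card := by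
        refine Finset.card_le_card_of_injOn q (fun x hx => hq1 x hx) ?_
        intro x hx y hy hxy
        have h1 := hq2 x hx
        have h2 := hq2 y hy
        have h3 := hq3 x hx
        have h4 := hq3 y hy
        have h5 := hq4 x hx
        have h6 := hq4 y hy
        rw [hxy] at h1 h3 h5
        exact Prod.ext (by linarith) (Prod.ext (by linarith) (by linarith))
      simpa using hle
    have h1 := Finset.card_le_mul_card_image S 9 hfib
    obtain ⟨K, hK⟩ : ∃ K : ℝ, K = M * X ^ ((1 + 2 * m - w) / (1 + m)) := ⟨_, rfl⟩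
    have hK0 : 0 ≤ K := by rw [hK]; positivity
    have h2 : (S.image kf).card ≤ (Finset.Icc (-⌊K⌋) ⌊K⌋).card := by
      refine Finset.card_le_card fun a ha => ?_
      obtain ⟨x, hx, rfl⟩ := Finset.mem_image.1 ha
      have h3 := hkb x ((hmem x).1 hx)
      rw [← hK] at h3
      rw [Finset.mem_Icc]
      have h4 := abs_le.1 h3
      have h5 : kf x ≤ ⌊K⌋ := Int.le_floor.2 h4.2
      have h6 : -kf x ≤ ⌊K⌋ := Int.le_floor.2 (by push_cast; linarith [h4.1])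
      exact ⟨by linarith, h5⟩
    rw [Int.card_Icc] at h2
    have h3 : ((⌊K⌋ + 1 - -⌊K⌋).toNat : ℝ) ≤ 2 * K + 1 := by
      have hfl : 0 ≤ ⌊K⌋ := Int.floor_nonneg.2 hK0
      have h4 : ((⌊K⌋ + 1 - -⌊K⌋).toNat : ℤ) = 2 * ⌊K⌋ + 1 := by omega
      have h5 : ((⌊K⌋ + 1 - -⌊K⌋).toNat : ℝ) = 2 * (⌊K⌋ : ℝ) + 1 := by
        exact_mod_cast h4
      rw [h5]
      have := Int.floor_le K
      linarith
    have h4 : ((Win ξ t w X).ncard : ℝ) ≤ 9 * (2 * K + 1) := by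
      rw [hcard]
      have h5 : (S.card : ℝ) ≤ 9 * ((S.image kf).card : ℝ) := by exact_mod_cast h1
      have h6 : ((S.image kf).card : ℝ) ≤ ((⌊K⌋ + 1 - -⌊K⌋).toNat : ℝ) := by exact_mod_cast h2
      linarith
    rw [hK] at h4
    nlinarith



theorem total (ξ m w : ℝ) (hm : 0 < m) (hξ : MeasE ξ m) (hw : 2 < w) (hw3 : w < 1 + 2 * m) :
    ∃ C : ℝ, 0 < C ∧ ∀ t X : ℝ, 1 ≤ X → {v ∈ Near ξ t w | (ht3 v : ℝ) ≤ X}.Finite ∧
      ({v ∈ Near ξ t w | (ht3 v : ℝ) ≤ X}.ncard : ℝ) ≤ C * X ^ ((1 + 2 * m - w) / (1 + m)) := by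
  obtain ⟨C, hC, h⟩ := window ξ m w hm hξ hw hw3.le
  obtain ⟨s, hs⟩ : ∃ s : ℝ, s = (1 + 2 * m - w) / (1 + m) := ⟨_, rfl⟩
  have hs0 : 0 < s := by rw [hs]; exact div_pos (by linarith) (by linarith)
  rw [← hs] at h ⊢
  have h2s : 1 < (2 : ℝ) ^ s := Real.one_lt_rpow (by norm_num) hs0
  obtain ⟨A, hA⟩ : ∃ A : ℝ, A = C / (2 ^ s - 1) + C := ⟨_, rfl⟩
  have hA0 : 0 < A := by
    rw [hA]
    have : 0 < (2 : ℝ) ^ s - 1 := by linarith
    positivity
  have hA1 : C ≤ A * (2 ^ s - 1) := by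
    have h1 : 0 < (2 : ℝ) ^ s - 1 := by linarith
    rw [hA, add_mul, div_mul_cancel₀ _ h1.ne']
    nlinarith
  have hfin : ∀ t Y : ℝ, {v ∈ Near ξ t w | (ht3 v : ℝ) ≤ Y}.Finite := fun t Y =>
    (fin_ht3 Y).subset fun _ hv => hv.2
  have hstep : ∀ (t : ℝ) (J : ℕ), ({v ∈ Near ξ t w | (ht3 v : ℝ) ≤ 2 ^ J}.ncard : ℝ) ≤
      A * ((2 : ℝ) ^ J) ^ s := by
    intro t J
    induction J with
    | zero =>
      have h1 := h t 1 le_rfl
      have h2 : {v ∈ Near ξ t w | (ht3 v : ℝ) ≤ 2 ^ 0} ⊆ Win ξ t w 1 := by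
        rintro v ⟨hv, hv1⟩
        rw [pow_zero] at hv1
        exact ⟨hv, ht3_pos hv.2.1, by linarith⟩
      have h3 : ({v ∈ Near ξ t w | (ht3 v : ℝ) ≤ 2 ^ 0}.ncard : ℝ) ≤ (Win ξ t w 1).ncard := by
        exact_mod_cast Set.ncard_le_ncard h2 (win_finite ξ t w 1)
      rw [Real.one_rpow, mul_one] at h1
      rw [pow_zero, Real.one_rpow, mul_one]
      rw [pow_zero] at h3
      have h4 : C ≤ A := by
        rw [hA]
        have : 0 < (2 : ℝ) ^ s - 1 := by linarith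
        have : 0 < C / (2 ^ s - 1) := by positivity
        linarith
      linarith
    | succ J ih =>
      have hJ : (1 : ℝ) ≤ 2 ^ J := one_le_pow₀ (by norm_num)
      have h1 := h t (2 ^ J) hJ
      have h2 : {v ∈ Near ξ t w | (ht3 v : ℝ) ≤ 2 ^ (J + 1)} ⊆
          {v ∈ Near ξ t w | (ht3 v : ℝ) ≤ 2 ^ J} ∪ Win ξ t w (2 ^ J) := by
        rintro v ⟨hv, hv1⟩
        rcases le_total (ht3 v : ℝ) (2 ^ J) with h3 | h3
        · exact Or.inl ⟨hv, h3⟩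
        · exact Or.inr ⟨hv, h3, by rw [pow_succ] at hv1; linarith⟩
      have h3 := Set.ncard_le_ncard h2 ((hfin t _).union (win_finite ξ t w _))
      have h4 := h3.trans (Set.ncard_union_le _ _)
      have h5 : ({v ∈ Near ξ t w | (ht3 v : ℝ) ≤ 2 ^ (J + 1)}.ncard : ℝ) ≤
          ({v ∈ Near ξ t w | (ht3 v : ℝ) ≤ 2 ^ J}.ncard : ℝ) + (Win ξ t w (2 ^ J)).ncard := by
        exact_mod_cast h4
      have h6 : ((2 : ℝ) ^ (J + 1)) ^ s = (2 ^ J) ^ s * 2 ^ s := by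
        rw [pow_succ, Real.mul_rpow (by positivity) (by norm_num)]
      have h7 : 0 < ((2 : ℝ) ^ J) ^ s := by positivity
      rw [h6]
      nlinarith
  refine ⟨A * 2 ^ s, by positivity, fun t X hX => ⟨hfin t X, ?_⟩⟩
  obtain ⟨n, hn1, hn2⟩ := exists_nat_pow_near hX (show (1 : ℝ) < 2 by norm_num)
  have h1 : ({v ∈ Near ξ t w | (ht3 v : ℝ) ≤ X}.ncard : ℝ) ≤
      ({v ∈ Near ξ t w | (ht3 v : ℝ) ≤ 2 ^ (n + 1)}.ncard : ℝ) := by
    have h2 : {v ∈ Near ξ t w | (ht3 v : ℝ) ≤ X} ⊆ {v ∈ Near ξ t w | (ht3 v : ℝ) ≤ 2 ^ (n + 1)} :=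
      fun v hv => ⟨hv.1, hv.2.trans hn2.le⟩
    exact_mod_cast Set.ncard_le_ncard h2 (hfin t _)
  have h2 := hstep t (n + 1)
  have h3 : ((2 : ℝ) ^ (n + 1)) ^ s ≤ 2 ^ s * X ^ s := by
    rw [← Real.mul_rpow (by norm_num) (by linarith)]
    refine Real.rpow_le_rpow (by positivity) ?_ hs0.le
    rw [pow_succ]
    linarith
  calc ({v ∈ Near ξ t w | (ht3 v : ℝ) ≤ X}.ncard : ℝ) ≤ A * ((2 : ℝ) ^ (n + 1)) ^ s := h1.trans h2
    _ ≤ A * (2 ^ s * X ^ s) := by gcongr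
    _ = _ := by ring

end Pool.Agent.X142.ZG
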