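import Pool.Agent.X142.ZG.Sim
import Pool.Agent.TH817.Z3.Z
import Pool.Agent.TH250.Z3.Arch

/-!
# The measure of irrationality of `ζ(3)` in the form needed here
-/

set_option autoImplicit false

namespace Pool.Agent.X142.ZG

lemma measE_of_exponent (ξ m : ℝ) (hm : 0 ≤ m) (h : ∃ c : ℝ, 0 < c ∧ ∀ (p : ℤ) (q : ℕ), 0 < q →
    c / (q : ℝ) ^ (m + 1) ≤ |ξ - (p : ℝ) / q|) : MeasE ξ m := by
  obtain ⟨c, hc, h⟩ := h
  refine ⟨min c 1, by positivity, ?_⟩
  -- positive second coordinate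
  have key : ∀ (A : ℤ) (q : ℕ), 0 < q → ∀ H : ℝ, 1 ≤ H → (q : ℝ) ≤ H →
      c ≤ H ^ m * |(A : ℝ) + q * ξ| := by
    intro A q hq H hH hqH
    have hqR : (0 : ℝ) < q := by exact_mod_cast hq
    have h1 := h (-A) q hq
    have e1 : |(A : ℝ) + q * ξ| = q * |ξ - ((-A : ℤ) : ℝ) / q| := by
      rw [← abs_of_pos hqR, ← abs_mul, abs_of_pos hqR]
      congr 1
      push_cast
      field_simp
      ring
    have h2 : c / (q : ℝ) ^ m ≤ |(A : ℝ) + q * ξ| := by
      rw [e1]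
      calc c / (q : ℝ) ^ m = q * (c / (q : ℝ) ^ (m + 1)) := by
            rw [Real.rpow_add hqR, Real.rpow_one]
            field_simp
        _ ≤ _ := mul_le_mul_of_nonneg_left h1 hqR.le
    have h3 : (q : ℝ) ^ m ≤ H ^ m := Real.rpow_le_rpow hqR.le hqH hm
    have h4 : 0 < (q : ℝ) ^ m := by positivity
    rw [div_le_iff₀ h4] at h2
    calc c ≤ |(A : ℝ) + q * ξ| * (q : ℝ) ^ m := h2
      _ ≤ |(A : ℝ) + q * ξ| * H ^ m := mul_le_mul_of_nonneg_left h3 (abs_nonneg _)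
      _ = _ := mul_comm _ _
  intro A B hAB H hH hA hB
  rcases lt_trichotomy B 0 with hB0 | hB0 | hB0
  · have h1 := key (-A) B.natAbs (by omega) H hH (by
      rw [Nat.cast_natAbs, Int.cast_abs]
      exact hB)
    have e : ((-A : ℤ) : ℝ) + (B.natAbs : ℝ) * ξ = -((A : ℝ) + B * ξ) := by
      have : ((B.natAbs : ℕ) : ℝ) = -(B : ℝ) := by
        rw [Nat.cast_natAbs, Int.cast_abs, abs_of_neg (by exact_mod_cast hB0)]
      rw [this]
      push_cast
      ring
    rw [e, abs_neg] at h1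
    exact (min_le_left _ _).trans h1
  · have hA0 : A ≠ 0 := by
      rcases hAB with h | h
      · exact h
      · exact absurd hB0 h
    have h1 : (1 : ℝ) ≤ |(A : ℝ)| := by
      have := Int.one_le_abs hA0
      exact_mod_cast this
    have h2 : 1 ≤ H ^ m := Real.one_le_rpow hH hm
    rw [hB0]
    push_cast
    rw [zero_mul, add_zero]
    refine (min_le_right _ _).trans ?_
    nlinarith
  · have h1 := key A B.natAbs (by omega) H hH (by
      rw [Nat.cast_natAbs, Int.cast_abs]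
      exact hB)
    have e : (B.natAbs : ℝ) = (B : ℝ) := by
      rw [Nat.cast_natAbs, Int.cast_abs, abs_of_pos (by exact_mod_cast hB0)]
    rw [e] at h1
    exact (min_le_left _ _).trans h1

/-- `ζ(3)` -/
noncomputable def zeta3 : ℝ := ∑' n : ℕ, 1 / ((n : ℝ) + 1) ^ 3

theorem meas_zeta3 : MeasE (∑' n : ℕ, 1 / ((n : ℝ) + 1) ^ 3) (368 / 100) := by
  refine measE_of_exponent _ _ (by norm_num) ?_
  obtain ⟨c, hc, h⟩ := Pool.Agent.TH817.Z3.Z_pre Pool.Agent.TH250.Z3.AM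
  refine ⟨c, hc, fun p q hq => ?_⟩
  have e : (368 : ℝ) / 100 + 1 = 468 / 100 := by norm_num
  rw [e]
  exact h p q hq

end Pool.Agent.X142.ZG
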