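import Pool.Agent.X142.ZG.Lin

/-!
# Consequences of a linear relation
-/

set_option autoImplicit false

namespace Pool.Agent.X142.ZG

open Filter Pool.Agent.X262.ZO

lemma last_ne {ξ t : ℝ} (hξ : ∀ A B : ℤ, (A ≠ 0 ∨ B ≠ 0) → (A : ℝ) + B * ξ ≠ 0) {a b c : ℤ} (hne : a ≠ 0 ∨ b ≠ 0 ∨ c ≠ 0)
    (h : (a : ℝ) + b * ξ + c * t = 0) : c ≠ 0 := by
  intro hc
  have h1 : (a : ℝ) + b * ξ ≠ 0 := hξ _ _ (by
    rcases hne with h | h | h
    · exact Or.inl h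
    · exact Or.inr h
    · exact absurd hc h)
  apply h1
  rw [hc] at h
  push_cast at h
  linarith

theorem rel_sim {ξ t : ℝ} (hξ : ∀ A B : ℤ, (A ≠ 0 ∨ B ≠ 0) → (A : ℝ) + B * ξ ≠ 0) (h : Rel ξ t) (τ : ℝ) (hτ : τ < 1) : UnifSim ξ t τ := by
  obtain ⟨a, b, c, hne, hrel⟩ := h
  have hc := last_ne hξ hne hrel
  have hcR : (1 : ℝ) ≤ |(c : ℝ)| := by
    have := Int.one_le_abs hc
    exact_mod_cast this
  obtain ⟨K, hK⟩ : ∃ K, K = |(c : ℝ)| * |(c : ℝ)| + |(b : ℝ)| * |(c : ℝ)| := ⟨_, rfl⟩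
  have h1 : ∀ᶠ Q : ℝ in atTop, K ≤ Q ^ (1 - τ) :=
    (tendsto_rpow_atTop (by linarith : 0 < 1 - τ)).eventually (eventually_ge_atTop _)
  unfold UnifSim
  filter_upwards [h1, eventually_ge_atTop |(c : ℝ)|] with Q hQ hQc
  have hQ0 : 0 < Q := by linarith
  obtain ⟨n, hn⟩ : ∃ n, n = ⌊Q / |(c : ℝ)|⌋₊ := ⟨_, rfl⟩
  have hn1 : 1 ≤ n := by
    rw [hn]
    apply Nat.le_floor
    rw [Nat.cast_one, le_div_iff₀ (by linarith)]
    linarith
  have hn2 : (n : ℝ) ≤ Q / |(c : ℝ)| := hn ▸ Nat.floor_le (by positivity)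
  have hn3 : Q / |(c : ℝ)| < (n : ℝ) + 1 := hn ▸ Nat.lt_floor_add_one _
  obtain ⟨j, k, hk0, hkn, hjk⟩ := Real.exists_int_int_abs_mul_sub_le ξ (by omega : 0 < n)
  have h3 : |(k : ℝ) * ξ - j| ≤ |(c : ℝ)| / Q := by
    refine hjk.trans ?_
    rw [div_le_div_iff₀ (by positivity) hQ0]
    rw [div_lt_iff₀ (by linarith)] at hn3
    linarith
  have h4 : K / Q ≤ Q ^ (-τ) := by
    rw [div_le_iff₀ hQ0]
    refine hQ.trans (le_of_eq ?_)
    rw [show (1 : ℝ) - τ = -τ + 1 by ring, Real.rpow_add hQ0, Real.rpow_one]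
  have hs : ((c.sign : ℤ) : ℝ) * c = |(c : ℝ)| := by
    have := Int.sign_mul_self_eq_abs c
    exact_mod_cast this
  have hs1 : |((c.sign : ℤ) : ℝ)| = 1 := by
    rcases lt_or_gt_of_ne hc with h | h
    · rw [Int.sign_eq_neg_one_of_neg h]
      norm_num
    · rw [Int.sign_eq_one_of_pos h]
      norm_num
  refine ⟨|c| * k, |c| * j, -(c.sign * (k * a + b * j)), ?_, ?_, ?_, ?_⟩
  · have := Int.one_le_abs hc
    nlinarith
  · push_cast
    have hkR : (k : ℝ) ≤ n := by exact_mod_cast hkn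
    have h5 := hkR.trans hn2
    rw [le_div_iff₀ (by linarith)] at h5
    linarith
  · push_cast
    rw [show |(c : ℝ)| * k * ξ - |(c : ℝ)| * j = |(c : ℝ)| * (k * ξ - j) by ring, abs_mul, abs_abs]
    refine le_trans ?_ h4
    calc |(c : ℝ)| * |(k : ℝ) * ξ - j| ≤ |(c : ℝ)| * (|(c : ℝ)| / Q) :=
          mul_le_mul_of_nonneg_left h3 (abs_nonneg _)
      _ = |(c : ℝ)| * |(c : ℝ)| / Q := by ring
      _ ≤ K / Q := by
          apply div_le_div_of_nonneg_right _ hQ0.le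
          rw [hK]
          have : 0 ≤ |(b : ℝ)| * |(c : ℝ)| := by positivity
          linarith
  · push_cast
    have h5 : |(c : ℝ)| * k * t - -(((c.sign : ℤ) : ℝ) * (k * a + b * j)) =
        -(((c.sign : ℤ) : ℝ) * (b * (k * ξ - j))) := by
      rw [← hs]
      linear_combination ((c.sign : ℤ) : ℝ) * k * hrel
    rw [h5, abs_neg, abs_mul, hs1, one_mul, abs_mul]
    refine le_trans ?_ h4
    calc |(b : ℝ)| * |(k : ℝ) * ξ - j| ≤ |(b : ℝ)| * (|(c : ℝ)| / Q) :=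
          mul_le_mul_of_nonneg_left h3 (abs_nonneg _)
      _ = |(b : ℝ)| * |(c : ℝ)| / Q := by ring
      _ ≤ K / Q := by
          apply div_le_div_of_nonneg_right _ hQ0.le
          rw [hK]
          have : 0 ≤ |(c : ℝ)| * |(c : ℝ)| := by positivity
          linarith


end Pool.Agent.X142.ZG
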